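import Pool.Agent.Lib.MP_479d4c_gt.S.Iface

/-!
# MP_479d4c_gt, short proof, modules AID and CLO (helper59)
-/

set_option autoImplicit false

open ComplexConjugate Topology Metric

noncomputable section

namespace CMC82.H59

open CMC46 CMC82

/-- A function with vanishing derivative in the disc is constant. -/
theorem const_disc (f : ℂ → ℂ) (hf : ∀ x : ℂ, ‖x‖ < 6 / 5 → HasDerivAt f 0 x) (x : ℂ)
    (hx : ‖x‖ < 6 / 5) : f x = f 0 := by
  have hc : Convex ℝ (ball (0 : ℂ) (6 / 5)) := convex_ball _ _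
  exact IsOpen.is_const_of_deriv_eq_zero (f := f) (isOpen_ball (x := (0 : ℂ)) (ε := 6 / 5))
    hc.isPreconnected
    (fun y hy => (hf y (mem_ball_zero_iff.1 hy)).differentiableAt.differentiableWithinAt)
    (fun y hy => (hf y (mem_ball_zero_iff.1 hy)).deriv)
    (mem_ball_zero_iff.2 hx) (mem_ball_zero_iff.2 (by norm_num))

theorem ev_nhds (x : ℂ) (hx : ‖x‖ < 6 / 5) (P : ℂ → Prop) (h : ∀ y : ℂ, ‖y‖ < 6 / 5 → P y) :
    ∀ᶠ y in 𝓝 x, P y := by
  filter_upwards [isOpen_ball.mem_nhds (mem_ball_zero_iff.2 hx)] with y hy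
  exact h y (mem_ball_zero_iff.1 hy)

theorem hdc {f g : ℂ → ℂ} {a b x : ℂ} (h : HasDerivAt f a x) (hf : ∀ y, g y = f y)
    (hab : b = a) : HasDerivAt g b x := by
  rw [hab, funext hf]
  exact h

theorem dw_eq (hE : EvdS) {f : Arr} (hf : Cv f) {w v : ℂ} (hw : ‖w‖ < 6 / 5) (hv : ‖v‖ < 6 / 5)
    {g : ℂ → ℂ} (h : ∀ x : ℂ, ‖x‖ < 6 / 5 → ev2 f x v = g x) {g' : ℂ} (hg : HasDerivAt g g' w) :
    ev2 (dw f) w v = g' := by
  have h1 := ((hE f hf).1 w v hw hv).1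
  have h2 : HasDerivAt (fun x => ev2 f x v) g' w :=
    hg.congr_of_eventuallyEq (ev_nhds w hw (fun y => ev2 f y v = g y) h)
  exact h1.unique h2

theorem dv_eq (hE : EvdS) {f : Arr} (hf : Cv f) {w v : ℂ} (hw : ‖w‖ < 6 / 5) (hv : ‖v‖ < 6 / 5)
    {g : ℂ → ℂ} (h : ∀ x : ℂ, ‖x‖ < 6 / 5 → ev2 f w x = g x) {g' : ℂ} (hg : HasDerivAt g g' v) :
    ev2 (dv f) w v = g' := by
  have h1 := ((hE f hf).1 w v hw hv).2
  have h2 : HasDerivAt (fun x => ev2 f w x) g' v :=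
    hg.congr_of_eventuallyEq (ev_nhds v hv (fun y => ev2 f w y = g y) h)
  exact h1.unique h2

section

variable {d τ : ℝ} {k : ℕ → ℝ} {p1 p2 y z sg be ga : Arr}

theorem sg_symm (hS : Sol d τ k p1 p2 y z sg be ga) {w v : ℂ} (hw : ‖w‖ < 6 / 5)
    (hv : ‖v‖ < 6 / 5) : ev2 sg v w = ev2 sg w v := by
  rw [hS.hs w v hw hv, hS.hs v w hv hw]
  ring

/-- the derivatives of `q1`, `q2` in `w` -/
theorem q1_w (hE : EvdS) (hC : ClsS) (hS : Sol d τ k p1 p2 y z sg be ga) {w v : ℂ}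
    (hw : ‖w‖ < 6 / 5) (hv : ‖v‖ < 6 / 5) :
    HasDerivAt (fun x => ev2 p1 v x) (-(d * (ev2 sg w v * ev1 k w * ev2 p2 w v))) w := by
  have h := ((hE p1 (hC.1 _ hS.c1)).1 v w hv hw).2
  rw [hS.e1 v w hv hw, sg_symm hS hw hv] at h
  exact h

theorem q2_w (hE : EvdS) (hC : ClsS) (hS : Sol d τ k p1 p2 y z sg be ga) {w v : ℂ}
    (hw : ‖w‖ < 6 / 5) (hv : ‖v‖ < 6 / 5) :
    HasDerivAt (fun x => ev2 p2 v x) (ev2 sg w v * ev1 k w * ev2 p1 w v) w := by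
  have h := ((hE p2 (hC.1 _ hS.c2)).1 v w hv hw).2
  rw [hS.e2 v w hv hw, sg_symm hS hw hv] at h
  exact h

theorem p1_w (hE : EvdS) (hC : ClsS) (hS : Sol d τ k p1 p2 y z sg be ga) {w v : ℂ}
    (hw : ‖w‖ < 6 / 5) (hv : ‖v‖ < 6 / 5) :
    HasDerivAt (fun x => ev2 p1 x v) (ev2 (dw p1) w v) w :=
  ((hE p1 (hC.1 _ hS.c1)).1 w v hw hv).1

theorem p2_w (hE : EvdS) (hC : ClsS) (hS : Sol d τ k p1 p2 y z sg be ga) {w v : ℂ}
    (hw : ‖w‖ < 6 / 5) (hv : ‖v‖ < 6 / 5) :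
    HasDerivAt (fun x => ev2 p2 x v) (ev2 (dw p2) w v) w :=
  ((hE p2 (hC.1 _ hS.c2)).1 w v hw hv).1

theorem p1_v (hE : EvdS) (hC : ClsS) (hS : Sol d τ k p1 p2 y z sg be ga) {w v : ℂ}
    (hw : ‖w‖ < 6 / 5) (hv : ‖v‖ < 6 / 5) :
    HasDerivAt (fun x => ev2 p1 w x) (-(d * (ev2 sg w v * ev1 k v * ev2 p2 v w))) v := by
  have h := ((hE p1 (hC.1 _ hS.c1)).1 w v hw hv).2
  rw [hS.e1 w v hw hv] at h
  exact h

theorem p2_v (hE : EvdS) (hC : ClsS) (hS : Sol d τ k p1 p2 y z sg be ga) {w v : ℂ}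
    (hw : ‖w‖ < 6 / 5) (hv : ‖v‖ < 6 / 5) :
    HasDerivAt (fun x => ev2 p2 w x) (ev2 sg w v * ev1 k v * ev2 p1 v w) v := by
  have h := ((hE p2 (hC.1 _ hS.c2)).1 w v hw hv).2
  rw [hS.e2 w v hw hv] at h
  exact h

/-- `s_w = p1_w q1 + d p2_w q2` -/
theorem sg_w (hE : EvdS) (hC : ClsS) (hS : Sol d τ k p1 p2 y z sg be ga) {w v : ℂ}
    (hw : ‖w‖ < 6 / 5) (hv : ‖v‖ < 6 / 5) :
    HasDerivAt (fun x => ev2 sg x v)
      (ev2 (dw p1) w v * ev2 p1 v w + d * (ev2 (dw p2) w v * ev2 p2 v w)) w := by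
  have h1 := ((hE sg (hC.1 _ hS.cs)).1 w v hw hv).1
  have h2 : ev2 (dw sg) w v =
      ev2 (dw p1) w v * ev2 p1 v w + d * (ev2 (dw p2) w v * ev2 p2 v w) := by
    refine dw_eq hE (hC.1 _ hS.cs) hw hv (fun x hx => hS.hs x v hx hv) ?_
    refine hdc (((p1_w hE hC hS hw hv).mul (q1_w hE hC hS hw hv)).add
      (((p2_w hE hC hS hw hv).mul (q2_w hE hC hS hw hv)).const_mul (d : ℂ))) (fun _ => rfl) ?_
    ring
  rw [h2] at h1
  exact h1

theorem p1_wv (hE : EvdS) (hC : ClsS) (hS : Sol d τ k p1 p2 y z sg be ga) {w v : ℂ}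
    (hw : ‖w‖ < 6 / 5) (hv : ‖v‖ < 6 / 5) :
    HasDerivAt (fun x => ev2 (dw p1) w x)
      (-(d * ev1 k v) * ((ev2 (dw p1) w v * ev2 p1 v w + d * (ev2 (dw p2) w v * ev2 p2 v w)) *
        ev2 p2 v w + ev2 sg w v * (ev2 sg w v * ev1 k w * ev2 p1 w v))) v := by
  have hcv := (hC.2.1 p1 (hC.1 _ hS.c1)).1
  have hcv' := (hC.2.1 p1 (hC.1 _ hS.c1)).2.1
  have h1 := ((hE (dw p1) hcv).1 w v hw hv).2
  rw [← hC.2.2.1] at h1
  have h2 : ev2 (dw (dv p1)) w v =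
      -(d * ev1 k v) * ((ev2 (dw p1) w v * ev2 p1 v w + d * (ev2 (dw p2) w v * ev2 p2 v w)) *
        ev2 p2 v w + ev2 sg w v * (ev2 sg w v * ev1 k w * ev2 p1 w v)) := by
    refine dw_eq hE hcv' hw hv (fun x hx => hS.e1 x v hx hv) ?_
    refine hdc (((sg_w hE hC hS hw hv).mul (q2_w hE hC hS hw hv)).const_mul
      (-((d : ℂ) * ev1 k v))) (fun x => ?_) rfl
    simp only [Pi.mul_apply]
    ring
  rw [h2] at h1
  exact h1

theorem p2_wv (hE : EvdS) (hC : ClsS) (hS : Sol d τ k p1 p2 y z sg be ga) {w v : ℂ}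
    (hw : ‖w‖ < 6 / 5) (hv : ‖v‖ < 6 / 5) :
    HasDerivAt (fun x => ev2 (dw p2) w x)
      (ev1 k v * ((ev2 (dw p1) w v * ev2 p1 v w + d * (ev2 (dw p2) w v * ev2 p2 v w)) *
        ev2 p1 v w + ev2 sg w v * -(d * (ev2 sg w v * ev1 k w * ev2 p2 w v)))) v := by
  have hcv := (hC.2.1 p2 (hC.1 _ hS.c2)).1
  have hcv' := (hC.2.1 p2 (hC.1 _ hS.c2)).2.1
  have h1 := ((hE (dw p2) hcv).1 w v hw hv).2
  rw [← hC.2.2.1] at h1
  have h2 : ev2 (dw (dv p2)) w v =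
      ev1 k v * ((ev2 (dw p1) w v * ev2 p1 v w + d * (ev2 (dw p2) w v * ev2 p2 v w)) *
        ev2 p1 v w + ev2 sg w v * -(d * (ev2 sg w v * ev1 k w * ev2 p2 w v))) := by
    refine dw_eq hE hcv' hw hv (fun x hx => hS.e2 x v hx hv) ?_
    refine hdc (((sg_w hE hC hS hw hv).mul (q1_w hE hC hS hw hv)).const_mul (ev1 k v))
      (fun x => ?_) rfl
    simp only [Pi.mul_apply]
    ring
  rw [h2] at h1
  exact h1

end

/-- AID. -/
theorem aid_st : ClsS → EvdS → AidS := by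
  intro hC hE d τ k p1 p2 y z sg be ga hS w v hw hv
  have h0 : ‖(0 : ℂ)‖ < 6 / 5 := by norm_num
  have hconst := const_disc
    (fun x => ev2 p1 w x * ev2 (dw p2) w x - ev2 p2 w x * ev2 (dw p1) w x) (by
      intro x hx
      refine hdc (((p1_v hE hC hS hw hx).mul (p2_wv hE hC hS hw hx)).sub
        ((p2_v hE hC hS hw hx).mul (p1_wv hE hC hS hw hx))) (fun _ => rfl) ?_
      have hs := hS.hs w x hw hx
      linear_combination (ev1 k x * (ev2 (dw p1) w x * ev2 p1 x w + d *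
        (ev2 (dw p2) w x * ev2 p2 x w))) * hs) v hv
  rw [hconst]
  have e1 : ev2 (dw p1) w 0 = 1 :=
    dw_eq hE (hC.1 _ hS.c1) hw h0 (fun x hx => hS.i1 x hx) (hasDerivAt_id w)
  have e2 : ev2 (dw p2) w 0 = τ + w := by
    refine dw_eq hE (hC.1 _ hS.c2) hw h0 (fun x hx => hS.i2 x hx) ?_
    refine hdc ((((hasDerivAt_id w).const_mul (τ : ℂ)).const_add 1).add
      (((hasDerivAt_id w).pow 2).div_const 2)) (fun _ => rfl) ?_
    simp
  rw [e1, e2, hS.i1 w hw, hS.i2 w hw]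
  ring

/-- CLO. -/
theorem clo_st : ClsS → EvdS → CloS := by
  intro hC hE d τ k p1 p2 y z sg be ga hS
  have h0 : ‖(0 : ℂ)‖ < 6 / 5 := by norm_num
  have hcy := hC.1 _ hS.cy
  have hcz := hC.1 _ hS.cz
  -- `y_v`
  have hy : ∀ w v : ℂ, ‖w‖ < 6 / 5 → ‖v‖ < 6 / 5 →
      ev2 (dv y) w v = ev1 k v * (ev2 p1 v w * ev2 p2 v w) := by
    intro w v hw hv
    have hconst := const_disc
      (fun x => ev2 (dv y) x v - ev1 k v * (ev2 p1 v x * ev2 p2 v x)) (by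
        intro x hx
        have h1 := ((hE (dv y) (hC.2.1 y hcy).2.1).1 x v hx hv).1
        rw [hC.2.2.1] at h1
        have h2 : ev2 (dv (dw y)) x v = ev1 k x *
            (-(d * (ev2 sg x v * ev1 k v * ev2 p2 v x)) * ev2 p2 x v +
              ev2 p1 x v * (ev2 sg x v * ev1 k v * ev2 p1 v x)) :=
          dv_eq hE (hC.2.1 y hcy).1 hx hv (fun t ht => hS.ey x t hx ht)
            (((p1_v hE hC hS hx hv).mul (p2_v hE hC hS hx hv)).const_mul _)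
        rw [h2] at h1
        refine hdc (h1.sub (((q1_w hE hC hS hx hv).mul (q2_w hE hC hS hx hv)).const_mul
          (ev1 k v))) (fun _ => rfl) ?_
        ring) w hw
    rw [hS.ey0 v hv, sub_self, sub_eq_zero] at hconst
    exact hconst
  refine fun w v hw hv => ⟨hy w v hw hv, ?_, ?_⟩
  · have hconst := const_disc
      (fun x => ev2 (dv z) x v + d * (ev1 k v * ev2 p2 v x ^ 2)) (by
        intro x hx
        have h1 := ((hE (dv z) (hC.2.1 z hcz).2.1).1 x v hx hv).1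
        rw [hC.2.2.1] at h1
        have h2 : ev2 (dv (dw z)) x v = ev1 k x *
            ((2 : ℕ) * ev2 p1 x v ^ (2 - 1) * -(d * (ev2 sg x v * ev1 k v * ev2 p2 v x))) :=
          dv_eq hE (hC.2.1 z hcz).1 hx hv (fun t ht => hS.ez x t hx ht)
            (((p1_v hE hC hS hx hv).pow 2).const_mul _)
        rw [h2] at h1
        refine hdc (h1.add ((((q2_w hE hC hS hx hv).pow 2).const_mul (ev1 k v)).const_mul
          (d : ℂ))) (fun _ => rfl) ?_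
        push_cast
        ring) w hw
    rw [hS.ez0 v hv, neg_add_cancel] at hconst
    linear_combination hconst
  · -- symmetry
    have hsym : ∀ x : ℂ, ‖x‖ < 6 / 5 → ∀ t : ℂ, ‖t‖ < 6 / 5 →
        HasDerivAt (fun x => ev2 y x t - ev2 y t x) 0 x := by
      intro x hx t ht
      have h1 := ((hE y hcy).1 x t hx ht).1
      have h2 := ((hE y hcy).1 t x ht hx).2
      rw [hS.ey x t hx ht] at h1
      rw [hy t x ht hx] at h2
      refine hdc (h1.sub h2) (fun _ => rfl) ?_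
      ring
    have h1 := const_disc (fun x => ev2 y x v - ev2 y v x) (fun x hx => hsym x hx v hv) w hw
    have h2 := const_disc (fun x => ev2 y x 0 - ev2 y 0 x) (fun x hx => hsym x hx 0 h0) v hv
    simp only [sub_self] at h1 h2
    linear_combination -h1 + h2

end CMC82.H59
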